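import Pool.Agent.BMA.Main

/-!
# A family of del Pezzo surfaces of degree 2 in which the Brauer-Manin obstruction is active for a
positive proportion and is the only obstruction to the Hasse principle for 100%

For `F ∈ ℤ^6` let `f = F_0 x² + F_1 y² + F_2 z² + F_3 yz + F_4 xz + F_5 xy` and let `X_F` be the
surface `w² + (x² + y² + z²)² = x y f(x, y, z)` in the weighted projective space `ℙ(1, 1, 1, 2)`.
If it is smooth, it is a del Pezzo surface of degree 2 (a Fano surface).  The class of the quaternion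
algebra `(-1, x y / z²)` belongs to its Brauer group.

Order the `F` by the maximal absolute value `H` of the entries.  A positive proportion of the
surfaces is smooth and has points over `ℝ` and all `ℚ_p`, but has no adelic point orthogonal to this
class, hence no rational point; a positive proportion is smooth and has such an adelic point, and
100% of the latter have a rational point.  The least height of a rational point is
`H ^ (1/2 + o(1))` for 100% of them.
-/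

namespace Pool.Agent.Results.MP_03ef3d_ag.BrauerManinActive

/-- the ternary quadratic form with coefficients `F` -/
def form {K : Type*} [CommRing K] (F : Fin 6 → ℤ) (x y z : K) : K :=
  F 0 * x ^ 2 + F 1 * y ^ 2 + F 2 * z ^ 2 + F 3 * (y * z) + F 4 * (x * z) + F 5 * (x * y)

/-- `(x : y : z : w)` is a point of the surface `X_F` -/
def IsPoint {K : Type*} [CommRing K] (F : Fin 6 → ℤ) (x y z w : K) : Prop :=
  ¬ (x = 0 ∧ y = 0 ∧ z = 0) ∧
    w ^ 2 + (x ^ 2 + y ^ 2 + z ^ 2) ^ 2 = x * y * form F x y z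

/-- the surface `X_F` has a point over `K` -/
def HasPoint (K : Type*) [CommRing K] (F : Fin 6 → ℤ) : Prop := ∃ x y z w : K, IsPoint F x y z w

/-- the surface `X_F` has points over `ℝ` and all `ℚ_p` -/
def EverywhereLocallySoluble (F : Fin 6 → ℤ) : Prop :=
  HasPoint ℝ F ∧ ∀ (p : ℕ) [Fact p.Prime], HasPoint ℚ_[p] F

/-- the complex surface `X_F` is smooth: the partial derivatives of
`w ^ 2 + (x ^ 2 + y ^ 2 + z ^ 2) ^ 2 - x y f(x, y, z)` do not all vanish at a point of `X_F` -/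
def IsSmooth (F : Fin 6 → ℤ) : Prop := ∀ x y z w : ℂ, IsPoint F x y z w →
  ¬ (2 * w = 0 ∧
    4 * (x ^ 2 + y ^ 2 + z ^ 2) * x =
      y * form F x y z + x * y * (2 * F 0 * x + F 4 * z + F 5 * y) ∧
    4 * (x ^ 2 + y ^ 2 + z ^ 2) * y =
      x * form F x y z + x * y * (2 * F 1 * y + F 3 * z + F 5 * x) ∧
    4 * (x ^ 2 + y ^ 2 + z ^ 2) * z = x * y * (2 * F 2 * z + F 3 * y + F 4 * x))

/-- `t` is a sum of two squares in `K`, i.e. a norm from `K(i)` -/
def SumTwoSq {K : Type*} [CommRing K] (t : K) : Prop := ∃ r s : K, t = r ^ 2 + s ^ 2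

open scoped Classical in
/-- There is an adelic point of `X_F` which is orthogonal to the class of the quaternion algebra
`(-1, x y / z ^ 2)` in the Brauer group of `X_F`: the local invariant of this class at a local
point `(x, y, z, w)` over `K = ℝ` or `ℚ_p` is `0` if `x y` is a sum of two squares in `K` and `1/2`
otherwise, and the number of places where it is `1/2` is even. -/
def AlphaOrthogonal (F : Fin 6 → ℤ) : Prop :=
  ∃ (a : Fin 4 → ℝ) (b : ∀ (p : ℕ) [Fact p.Prime], Fin 4 → ℚ_[p]),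
    IsPoint F (a 0) (a 1) (a 2) (a 3) ∧
    (∀ (p : ℕ) [Fact p.Prime], IsPoint F (b p 0) (b p 1) (b p 2) (b p 3)) ∧
    {p : ℕ | ∃ _ : Fact p.Prime, ¬ SumTwoSq (b p 0 * b p 1)}.Finite ∧
    Even ({p : ℕ | ∃ _ : Fact p.Prime, ¬ SumTwoSq (b p 0 * b p 1)}.ncard +
      if SumTwoSq (a 0 * a 1) then 0 else 1)

/-- `X_F` has an integral point `(x, y, z, w)` with `x^2, y^2, z^2 ≤ T` -/
def HasSmallPoint (T : ℝ) (F : Fin 6 → ℤ) : Prop :=
  ∃ x y z w : ℤ, IsPoint F x y z w ∧ (x : ℝ) ^ 2 ≤ T ∧ (y : ℝ) ^ 2 ≤ T ∧ (z : ℝ) ^ 2 ≤ T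

/-- the coefficient vectors of height at most `H` -/
def Forms (H : ℕ) : Set (Fin 6 → ℤ) := {F | ∀ i, |F i| ≤ (H : ℤ)}

theorem forms_eq (H : ℕ) : Forms H = (BMAct.box6 H : Set (Fin 6 → ℤ)) := by
  ext F
  rw [Finset.mem_coe, BMA.Fin6.mem_box6']
  rfl

theorem ncard_eq (H : ℕ) (P Q : (Fin 6 → ℤ) → Prop) [DecidablePred Q] (h : ∀ F, P F ↔ Q F) :
    {F ∈ Forms H | P F}.ncard = ((BMAct.box6 H).filter Q).card := by
  have h1 : {F ∈ Forms H | P F} = (((BMAct.box6 H).filter Q : Finset _) : Set (Fin 6 → ℤ)) := by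
    ext F
    rw [forms_eq, Finset.coe_filter]
    simp [h]
  rw [h1, Set.ncard_coe_finset]

theorem forms_finite (H : ℕ) (P : (Fin 6 → ℤ) → Prop) : {F ∈ Forms H | P F}.Finite := by
  rw [forms_eq]
  exact (Finset.finite_toSet _).subset (Set.sep_subset _ _)

theorem ncard_forms (H : ℕ) : ((Forms H).ncard : ℝ) = (2 * (H : ℝ) + 1) ^ 6 := by
  rw [forms_eq, Set.ncard_coe_finset]
  have h : (BMAct.box6 H).card = (2 * H + 1) ^ 6 := by
    simp only [BMAct.box6, Fintype.card_piFinset, Int.card_Icc, Finset.prod_const,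
      Finset.card_univ, Fintype.card_fin]
    congr 1
    omega
  rw [h]
  push_cast
  rfl

/-- **The Brauer-Manin obstruction in a family of del Pezzo surfaces of degree 2.**
(0) If `X_F` has a rational point, then it has an adelic point orthogonal to `(-1, xy/z²)`.
(1) - (4): There is `c > 0` such that for all `ε, η > 0` there is `H₀` such that for all `H ≥ H₀`,
among the `F` with entries in `[-H, H]`
(1) all but a proportion `ε` are smooth;
(2) at least a proportion `c` are smooth and have points over `ℝ` and all `ℚ_p`, but have no adelic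
point orthogonal to `(-1, xy/z²)` (so they have no rational point by (0));
(3) at least a proportion `c` are smooth and have an adelic point orthogonal to `(-1, xy/z²)`;
(4) all but a proportion `ε` of those in (3) have an integral point `(x, y, z, w)` with
`x², y², z² ≤ H^(1 + η)`, but none with `x², y², z² ≤ H^(1 - η)`. -/
theorem result :
    (∀ F : Fin 6 → ℤ, HasPoint ℚ F → AlphaOrthogonal F) ∧
    ∃ c : ℝ, 0 < c ∧ ∀ ε η : ℝ, 0 < ε → 0 < η → ∃ H₀ : ℕ, ∀ H : ℕ, H₀ ≤ H →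
      (1 - ε) * ((Forms H).ncard : ℝ) ≤ (({F ∈ Forms H | IsSmooth F}.ncard : ℕ) : ℝ) ∧
      c * ((Forms H).ncard : ℝ) ≤ (({F ∈ Forms H | IsSmooth F ∧ EverywhereLocallySoluble F ∧
        ¬ AlphaOrthogonal F}.ncard : ℕ) : ℝ) ∧
      c * ((Forms H).ncard : ℝ) ≤
        (({F ∈ Forms H | IsSmooth F ∧ AlphaOrthogonal F}.ncard : ℕ) : ℝ) ∧
      (1 - ε) * (({F ∈ Forms H | IsSmooth F ∧ AlphaOrthogonal F}.ncard : ℕ) : ℝ) ≤
        (({F ∈ Forms H | IsSmooth F ∧ AlphaOrthogonal F ∧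
          HasSmallPoint ((H : ℝ) ^ (1 + η)) F ∧
          ¬ HasSmallPoint ((H : ℝ) ^ (1 - η)) F}.ncard : ℕ) : ℝ) := by
  classical
  refine ⟨fun F h => BMA.Fin6.ort_of_point F h, BMA.Fin6.c6, BMA.Fin6.c6_pos,
    fun ε η hε hη => ?_⟩
  set c : ℝ := BMA.Fin6.c6 with hc
  have hc0 : 0 < c := BMA.Fin6.c6_pos
  set η' : ℝ := min η (1 / 5) with hη'
  have hη0 : 0 < η' := lt_min hη (by norm_num)
  have hη1 : η' ≤ 1 / 5 := min_le_right _ _
  have hη2 : η' ≤ η := min_le_left _ _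
  obtain ⟨H1, h1⟩ := BMA.Fin6.main_smooth ε hε
  obtain ⟨H2, h2⟩ := BMA.Fin6.main_obs
  obtain ⟨H3, h3⟩ := BMA.Fin6.main_free
  obtain ⟨H4, h4⟩ := BMA.Fin6.main_small η' (c * ε / 2) hη0 hη1 (by positivity)
  obtain ⟨H5, h5⟩ := BMA.Fin6.main_tiny η' (c * ε / 2) hη0 (by linarith) (by positivity)
  refine ⟨max (max H1 H2) (max (max H3 H4) (max H5 1)), fun H hH => ?_⟩
  have g1 := h1 H (le_trans (le_trans (le_max_left _ _) (le_max_left _ _)) hH)
  have g2 := h2 H (le_trans (le_trans (le_max_right _ _) (le_max_left _ _)) hH)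
  have g3 := h3 H (le_trans (le_trans (le_trans (le_max_left _ _) (le_max_left _ _))
    (le_max_right _ _)) hH)
  have g4 := h4 H (le_trans (le_trans (le_trans (le_max_right _ _) (le_max_left _ _))
    (le_max_right _ _)) hH)
  have g5 := h5 H (le_trans (le_trans (le_trans (le_max_left _ _) (le_max_right _ _))
    (le_max_right _ _)) hH)
  have hH1 : 1 ≤ H := le_trans (le_trans (le_trans (le_max_right _ _) (le_max_right _ _))
    (le_max_right _ _)) hH
  have hHR : (1 : ℝ) ≤ H := by exact_mod_cast hH1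
  rw [ncard_forms]
  have k1 : (({F ∈ Forms H | ¬ IsSmooth F}.ncard : ℕ) : ℝ) ≤ ε * (2 * (H : ℝ) + 1) ^ 6 := by
    rw [ncard_eq H (fun F => ¬ IsSmooth F) (fun F => ¬ BMA.Fin6.IsSmooth F) (fun F => Iff.rfl)]
    exact g1
  have k2 : c * (2 * (H : ℝ) + 1) ^ 6 ≤ (({F ∈ Forms H | IsSmooth F ∧
      EverywhereLocallySoluble F ∧ ¬ AlphaOrthogonal F}.ncard : ℕ) : ℝ) := by
    rw [ncard_eq H (fun F => IsSmooth F ∧ EverywhereLocallySoluble F ∧ ¬ AlphaOrthogonal F)
      (fun F => BMA.Fin6.IsSmooth F ∧ BMA.Fin6.EverywhereLocallySoluble F ∧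
      ¬ BMA.Fin6.AlphaOrthogonal F) (fun F => Iff.rfl)]
    exact g2
  have k3 : c * (2 * (H : ℝ) + 1) ^ 6 ≤
      (({F ∈ Forms H | IsSmooth F ∧ AlphaOrthogonal F}.ncard : ℕ) : ℝ) := by
    rw [ncard_eq H (fun F => IsSmooth F ∧ AlphaOrthogonal F)
      (fun F => BMA.Fin6.IsSmooth F ∧ BMA.Fin6.AlphaOrthogonal F) (fun F => Iff.rfl)]
    exact g3
  have k4 : (({F ∈ Forms H | AlphaOrthogonal F ∧
      ¬ HasSmallPoint ((H : ℝ) ^ (1 + η')) F}.ncard : ℕ) : ℝ) ≤
      c * ε / 2 * (2 * H + 1) ^ 6 := by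
    rw [ncard_eq H (fun F => AlphaOrthogonal F ∧ ¬ HasSmallPoint ((H : ℝ) ^ (1 + η')) F)
      (fun F => BMA.Fin6.AlphaOrthogonal F ∧
      ¬ BMA.Fin6.SmallPoint ((H : ℝ) ^ (1 + η')) F) (fun F => Iff.rfl)]
    exact g4
  have k5 : (({F ∈ Forms H | HasSmallPoint ((H : ℝ) ^ (1 - η')) F}.ncard : ℕ) : ℝ) ≤
      c * ε / 2 * (2 * H + 1) ^ 6 := by
    rw [ncard_eq H (fun F => HasSmallPoint ((H : ℝ) ^ (1 - η')) F)
      (fun F => BMA.Fin6.SmallPoint ((H : ℝ) ^ (1 - η')) F) (fun F => Iff.rfl)]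
    exact g5
  refine ⟨?_, k2, k3, ?_⟩
  · have hsub : Forms H ⊆ {F ∈ Forms H | IsSmooth F} ∪ {F ∈ Forms H | ¬ IsSmooth F} := by
      intro F hF
      by_cases h : IsSmooth F
      · exact Or.inl ⟨hF, h⟩
      · exact Or.inr ⟨hF, h⟩
    have k6 := (Set.ncard_le_ncard hsub ((forms_finite H _).union (forms_finite H _))).trans
      (Set.ncard_union_le _ _)
    have k7 : ((Forms H).ncard : ℝ) ≤ (({F ∈ Forms H | IsSmooth F}.ncard : ℕ) : ℝ) +
        (({F ∈ Forms H | ¬ IsSmooth F}.ncard : ℕ) : ℝ) := by exact_mod_cast k6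
    rw [ncard_forms] at k7
    linarith
  · have hup : (H : ℝ) ^ (1 + η') ≤ (H : ℝ) ^ (1 + η) :=
      Real.rpow_le_rpow_of_exponent_le hHR (by linarith)
    have hdn : (H : ℝ) ^ (1 - η) ≤ (H : ℝ) ^ (1 - η') :=
      Real.rpow_le_rpow_of_exponent_le hHR (by linarith)
    have mono : ∀ (F : Fin 6 → ℤ) (T T' : ℝ), T ≤ T' → HasSmallPoint T F →
        HasSmallPoint T' F := by
      rintro F T T' hT ⟨x, y, z, w, hp, hx, hy, hz⟩
      exact ⟨x, y, z, w, hp, hx.trans hT, hy.trans hT, hz.trans hT⟩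
    have hsub : {F ∈ Forms H | IsSmooth F ∧ AlphaOrthogonal F} ⊆
        ({F ∈ Forms H | IsSmooth F ∧ AlphaOrthogonal F ∧
          HasSmallPoint ((H : ℝ) ^ (1 + η)) F ∧ ¬ HasSmallPoint ((H : ℝ) ^ (1 - η)) F} ∪
        {F ∈ Forms H | AlphaOrthogonal F ∧ ¬ HasSmallPoint ((H : ℝ) ^ (1 + η')) F}) ∪
        {F ∈ Forms H | HasSmallPoint ((H : ℝ) ^ (1 - η')) F} := by
      rintro F ⟨hF, hF1, hF2⟩
      by_cases a1 : HasSmallPoint ((H : ℝ) ^ (1 - η')) F
      · exact Or.inr ⟨hF, a1⟩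
      · by_cases a2 : HasSmallPoint ((H : ℝ) ^ (1 + η')) F
        · exact Or.inl (Or.inl ⟨hF, hF1, hF2, mono F _ _ hup a2,
            fun a3 => a1 (mono F _ _ hdn a3)⟩)
        · exact Or.inl (Or.inr ⟨hF, hF2, a2⟩)
    have k6 := (Set.ncard_le_ncard hsub (((forms_finite H _).union (forms_finite H _)).union
      (forms_finite H _))).trans ((Set.ncard_union_le _ _).trans
      (Nat.add_le_add_right (Set.ncard_union_le _ _) _))
    have k7 : (({F ∈ Forms H | IsSmooth F ∧ AlphaOrthogonal F}.ncard : ℕ) : ℝ) ≤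
        (({F ∈ Forms H | IsSmooth F ∧ AlphaOrthogonal F ∧
          HasSmallPoint ((H : ℝ) ^ (1 + η)) F ∧
          ¬ HasSmallPoint ((H : ℝ) ^ (1 - η)) F}.ncard : ℕ) : ℝ) +
        (({F ∈ Forms H | AlphaOrthogonal F ∧
          ¬ HasSmallPoint ((H : ℝ) ^ (1 + η')) F}.ncard : ℕ) : ℝ) +
        (({F ∈ Forms H | HasSmallPoint ((H : ℝ) ^ (1 - η')) F}.ncard : ℕ) : ℝ) := by
      exact_mod_cast k6
    have k9 := mul_le_mul_of_nonneg_left k3 hε.le
    linarith

end Pool.Agent.Results.MP_03ef3d_ag.BrauerManinActive
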