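import Pool.Agent.BMQ.MainQ

/-!
# A family of quartic del Pezzo surfaces in which the Brauer-Manin obstruction is active for a
positive proportion and is the only obstruction to the Hasse principle for 100%

For `t ∈ ℤ^4` let `T = t_0 x + t_1 y + t_2 u + t_3 v` and let `X_t` be the surface
`x² + y² = u v`, `z² + (u + v)² = x T` in `ℙ^4`.  If it is smooth, it is a del Pezzo surface of
degree 4 (a Fano surface).  The class of the quaternion algebra `(-1, u / x)` belongs to its Brauer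
group.  For `t_2, t_3 > 0` and `t_0² + t_1² < 4 t_2 t_3`, that is if `T > 0` on the cone
`x² + y² = u v`, `u, v ≥ 0`, this class has constant invariant on `X_t(ℝ)`.

Order these positive `t` by the maximal absolute value `H` of the entries.  A positive proportion of
the surfaces is smooth and has points over `ℝ` and all `ℚ_p`, but has no adelic point orthogonal to
this class, hence no rational point; a positive proportion is smooth and has such an adelic point,
and 100% of the latter have a rational point.  For 100% of them the least value of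
`max (|x|, |y|, |u|, |v|)` over the rational points, with integral coordinates, is
`H ^ (1/2 + o(1))`.
-/

namespace Pool.Agent.Results.MP_03ef3d_ag.QuarticBrauerManin

/-- the linear form with coefficients `t` -/
def lform {K : Type*} [CommRing K] (t : Fin 4 → ℤ) (x y u v : K) : K :=
  t 0 * x + t 1 * y + t 2 * u + t 3 * v

/-- `(x : y : u : v : z)` is a point of the surface `X_t` -/
def IsPoint {K : Type*} [CommRing K] (t : Fin 4 → ℤ) (x y u v z : K) : Prop :=
  ¬ (x = 0 ∧ y = 0 ∧ u = 0 ∧ v = 0) ∧ x ^ 2 + y ^ 2 = u * v ∧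
    z ^ 2 + (u + v) ^ 2 = x * lform t x y u v

/-- the surface `X_t` has a point over `K` -/
def HasPoint (K : Type*) [CommRing K] (t : Fin 4 → ℤ) : Prop := ∃ x y u v z : K, IsPoint t x y u v z

/-- the surface `X_t` has points over `ℝ` and all `ℚ_p` -/
def EverywhereLocallySoluble (t : Fin 4 → ℤ) : Prop :=
  HasPoint ℝ t ∧ ∀ (p : ℕ) [Fact p.Prime], HasPoint ℚ_[p] t

/-- the complex surface `X_t` is smooth: the gradients of `x ^ 2 + y ^ 2 - u v` and of
`z ^ 2 + (u + v) ^ 2 - x T` are linearly independent at every point of `X_t` -/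
def IsSmooth (t : Fin 4 → ℤ) : Prop := ∀ x y u v z : ℂ, IsPoint t x y u v z →
  LinearIndependent ℂ ![![2 * x, 2 * y, -v, -u, 0],
    ![-(lform t x y u v + t 0 * x), -(t 1 * x), 2 * (u + v) - t 2 * x, 2 * (u + v) - t 3 * x,
      2 * z]]

/-- `s` is a sum of two squares in `K`, i.e. a norm from `K(i)` -/
def SumTwoSq {K : Type*} [CommRing K] (s : K) : Prop := ∃ a b : K, s = a ^ 2 + b ^ 2

open scoped Classical in
/-- There is an adelic point of `X_t` which is orthogonal to the class of the quaternion algebra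
`(-1, u / x)` in the Brauer group of `X_t`: the local invariant of this class at a local point
`(x, y, u, v, z)` over `K = ℝ` or `ℚ_p` is `0` if `u x` is a sum of two squares in `K` and `1/2`
otherwise, and the number of places where it is `1/2` is even. -/
def AlphaOrthogonal (t : Fin 4 → ℤ) : Prop :=
  ∃ (a : Fin 5 → ℝ) (b : ∀ (p : ℕ) [Fact p.Prime], Fin 5 → ℚ_[p]),
    IsPoint t (a 0) (a 1) (a 2) (a 3) (a 4) ∧
    (∀ (p : ℕ) [Fact p.Prime], IsPoint t (b p 0) (b p 1) (b p 2) (b p 3) (b p 4)) ∧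
    {p : ℕ | ∃ _ : Fact p.Prime, ¬ SumTwoSq (b p 2 * b p 0)}.Finite ∧
    Even ({p : ℕ | ∃ _ : Fact p.Prime, ¬ SumTwoSq (b p 2 * b p 0)}.ncard +
      if SumTwoSq (a 2 * a 0) then 0 else 1)

/-- `X_t` has an integral point `(x, y, u, v, z)` with `|x|, |y|, |u|, |v| ≤ B` -/
def HasSmallPoint (B : ℝ) (t : Fin 4 → ℤ) : Prop :=
  ∃ x y u v z : ℤ, IsPoint t x y u v z ∧ |(x : ℝ)| ≤ B ∧ |(y : ℝ)| ≤ B ∧ |(u : ℝ)| ≤ B ∧
    |(v : ℝ)| ≤ B

/-- `T` is positive on the cone `x ^ 2 + y ^ 2 = u v`, `u, v ≥ 0` -/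
def PosDef (t : Fin 4 → ℤ) : Prop := 0 < t 2 ∧ 0 < t 3 ∧ t 0 ^ 2 + t 1 ^ 2 < 4 * (t 2 * t 3)

/-- the positive `t` with entries in `[-H, H]` -/
def Forms (H : ℕ) : Set (Fin 4 → ℤ) := {t | (∀ i, |t i| ≤ (H : ℤ)) ∧ PosDef t}

open scoped Classical in
theorem forms_eq (H : ℕ) :
    Forms H = (((BMQ.Fin4.box4 H).filter PosDef : Finset _) : Set (Fin 4 → ℤ)) := by
  ext t
  rw [Finset.mem_coe, Finset.mem_filter, BMQ.Fin4.mem_box4]
  exact Iff.rfl

theorem ncard_le (H : ℕ) (P Q : (Fin 4 → ℤ) → Prop) {dQ : DecidablePred Q}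
    (h : ∀ t, PosDef t → P t → Q t) :
    {t ∈ Forms H | P t}.ncard ≤ ((BMQ.Fin4.box4 H).filter Q).card := by
  rw [← Set.ncard_coe_finset]
  refine Set.ncard_le_ncard ?_ (Finset.finite_toSet _)
  rintro t ⟨⟨h1, h2⟩, h3⟩
  rw [Finset.mem_coe, Finset.mem_filter]
  exact ⟨BMQ.Fin4.mem_box4.2 h1, h t h2 h3⟩

theorem ncard_ge (H : ℕ) (P Q : (Fin 4 → ℤ) → Prop) {dQ : DecidablePred Q}
    (h : ∀ t, Q t → PosDef t ∧ P t) :
    ((BMQ.Fin4.box4 H).filter Q).card ≤ {t ∈ Forms H | P t}.ncard := by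
  classical
  rw [← Set.ncard_coe_finset]
  refine Set.ncard_le_ncard ?_ ?_
  · intro t ht
    rw [Finset.mem_coe, Finset.mem_filter] at ht
    exact ⟨⟨BMQ.Fin4.mem_box4.1 ht.1, (h t ht.2).1⟩, (h t ht.2).2⟩
  · rw [forms_eq]
    exact (Finset.finite_toSet _).subset (Set.sep_subset _ _)

theorem forms_finite (H : ℕ) (P : (Fin 4 → ℤ) → Prop) : {t ∈ Forms H | P t}.Finite := by
  classical
  rw [forms_eq]
  exact (Finset.finite_toSet _).subset (Set.sep_subset _ _)

theorem ncard_forms_le (H : ℕ) : ((Forms H).ncard : ℝ) ≤ (2 * (H : ℝ) + 1) ^ 4 := by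
  classical
  rw [forms_eq, Set.ncard_coe_finset]
  have h : (BMQ.Fin4.box4 H).card = (2 * H + 1) ^ 4 := by
    simp only [BMQ.Fin4.box4, Fintype.card_piFinset, Int.card_Icc, Finset.prod_const,
      Finset.card_univ, Fintype.card_fin]
    congr 1
    omega
  have h2 := Finset.card_filter_le (BMQ.Fin4.box4 H) PosDef
  rw [h] at h2
  exact_mod_cast h2

/-- **The Brauer-Manin obstruction in a family of quartic del Pezzo surfaces.**
(0) If `t` is positive and `X_t` has a rational point, then it has an adelic point orthogonal to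
`(-1, u/x)`.
(1) - (4): There is `c > 0` such that for all `ε, η > 0` there is `H₀` such that for all `H ≥ H₀`,
among the positive `t` with entries in `[-H, H]`
(1) all but a proportion `ε` are smooth;
(2) at least a proportion `c` are smooth and have points over `ℝ` and all `ℚ_p`, but have no adelic
point orthogonal to `(-1, u/x)` (so they have no rational point by (0));
(3) at least a proportion `c` are smooth and have an adelic point orthogonal to `(-1, u/x)`;
(4) all but a proportion `ε` of those in (3) have an integral point with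
`|x|, |y|, |u|, |v| ≤ H^(1/2 + η)`, but none with `|x|, |y|, |u|, |v| ≤ H^(1/2 - η)`. -/
theorem result :
    (∀ t : Fin 4 → ℤ, PosDef t → HasPoint ℚ t → AlphaOrthogonal t) ∧
    ∃ c : ℝ, 0 < c ∧ ∀ ε η : ℝ, 0 < ε → 0 < η → ∃ H₀ : ℕ, ∀ H : ℕ, H₀ ≤ H →
      (1 - ε) * ((Forms H).ncard : ℝ) ≤ (({t ∈ Forms H | IsSmooth t}.ncard : ℕ) : ℝ) ∧
      c * ((Forms H).ncard : ℝ) ≤ (({t ∈ Forms H | IsSmooth t ∧ EverywhereLocallySoluble t ∧
        ¬ AlphaOrthogonal t}.ncard : ℕ) : ℝ) ∧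
      c * ((Forms H).ncard : ℝ) ≤
        (({t ∈ Forms H | IsSmooth t ∧ AlphaOrthogonal t}.ncard : ℕ) : ℝ) ∧
      (1 - ε) * (({t ∈ Forms H | IsSmooth t ∧ AlphaOrthogonal t}.ncard : ℕ) : ℝ) ≤
        (({t ∈ Forms H | IsSmooth t ∧ AlphaOrthogonal t ∧
          HasSmallPoint ((H : ℝ) ^ (1 / 2 + η)) t ∧
          ¬ HasSmallPoint ((H : ℝ) ^ (1 / 2 - η)) t}.ncard : ℕ) : ℝ) := by
  classical
  refine ⟨fun t ht h => BMQ.Fin4.ort_of_point t ht h, BMQ.Fin4.cE, BMQ.Fin4.cE_pos,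
    fun ε η hε hη => ?_⟩
  set c : ℝ := BMQ.Fin4.cE with hc
  have hc0 : 0 < c := BMQ.Fin4.cE_pos
  set η' : ℝ := min η (1 / 2) with hη'
  have hη0 : 0 < η' := lt_min hη (by norm_num)
  have hη1 : η' ≤ 1 / 2 := min_le_right _ _
  have hη2 : η' ≤ η := min_le_left _ _
  obtain ⟨H1, h1⟩ := BMQ.Fin4.main_smooth (c * ε) (by positivity)
  obtain ⟨H2, h2⟩ := BMQ.Fin4.main_obs
  obtain ⟨H3, h3⟩ := BMQ.Fin4.main_free
  obtain ⟨H4, h4⟩ := BMQ.Fin4.main_small η' (c * ε / 2) hη0 (by positivity)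
  obtain ⟨H5, h5⟩ := BMQ.Fin4.main_tiny η' (c * ε / 2) hη0 hη1 (by positivity)
  refine ⟨max (max H1 H2) (max (max H3 H4) (max H5 1)), fun H hH => ?_⟩
  have g1 := h1 H (le_trans (le_trans (le_max_left _ _) (le_max_left _ _)) hH)
  have g2 := h2 H (le_trans (le_trans (le_max_right _ _) (le_max_left _ _)) hH)
  have g3 := h3 H (le_trans (le_trans (le_trans (le_max_left _ _) (le_max_left _ _))
    (le_max_right _ _)) hH)
  have g4 := h4 H (le_trans (le_trans (le_trans (le_max_right _ _) (le_max_left _ _))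
    (le_max_right _ _)) hH)
  have g5 := h5 H (le_trans (le_trans (le_trans (le_max_left _ _) (le_max_right _ _))
    (le_max_right _ _)) hH)
  have hH1 : 1 ≤ H := le_trans (le_trans (le_trans (le_max_right _ _) (le_max_right _ _))
    (le_max_right _ _)) hH
  have hHR : (1 : ℝ) ≤ H := by exact_mod_cast hH1
  have hF := ncard_forms_le H
  have hcF : c * ((Forms H).ncard : ℝ) ≤ c * (2 * (H : ℝ) + 1) ^ 4 :=
    mul_le_mul_of_nonneg_left hF hc0.le
  have k2 : c * (2 * (H : ℝ) + 1) ^ 4 ≤ (({t ∈ Forms H | IsSmooth t ∧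
      EverywhereLocallySoluble t ∧ ¬ AlphaOrthogonal t}.ncard : ℕ) : ℝ) :=
    g2.trans (Nat.cast_le.2 (ncard_ge H _ _ fun t ht => ht))
  have k3 : c * (2 * (H : ℝ) + 1) ^ 4 ≤
      (({t ∈ Forms H | IsSmooth t ∧ AlphaOrthogonal t}.ncard : ℕ) : ℝ) :=
    g3.trans (Nat.cast_le.2 (ncard_ge H _ _ fun t ht => ht))
  have hlow : c * (2 * (H : ℝ) + 1) ^ 4 ≤ ((Forms H).ncard : ℝ) := by
    refine k3.trans ?_
    have h6 : {t ∈ Forms H | IsSmooth t ∧ AlphaOrthogonal t} ⊆ Forms H := Set.sep_subset _ _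
    have h7 : (Forms H).Finite := by
      rw [forms_eq]
      exact Finset.finite_toSet _
    exact_mod_cast Set.ncard_le_ncard h6 h7
  have k1 : (({t ∈ Forms H | ¬ IsSmooth t}.ncard : ℕ) : ℝ) ≤ ε * ((Forms H).ncard : ℝ) := by
    have h6 : (({t ∈ Forms H | ¬ IsSmooth t}.ncard : ℕ) : ℝ) ≤
        c * ε * (2 * (H : ℝ) + 1) ^ 4 :=
      (Nat.cast_le.2 (ncard_le H _ _ fun t _ ht => ht)).trans g1
    have h8 := mul_le_mul_of_nonneg_left hlow hε.le
    linarith
  have k4 : (({t ∈ Forms H | AlphaOrthogonal t ∧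
      ¬ HasSmallPoint ((H : ℝ) ^ (1 / 2 + η')) t}.ncard : ℕ) : ℝ) ≤
      c * ε / 2 * (2 * H + 1) ^ 4 :=
    (Nat.cast_le.2 (ncard_le H _ _ fun t ht h => ⟨ht, h⟩)).trans g4
  have k5 : (({t ∈ Forms H | HasSmallPoint ((H : ℝ) ^ (1 / 2 - η')) t}.ncard : ℕ) : ℝ) ≤
      c * ε / 2 * (2 * H + 1) ^ 4 :=
    (Nat.cast_le.2 (ncard_le H _ _ fun t _ h => h)).trans g5
  refine ⟨?_, hcF.trans k2, hcF.trans k3, ?_⟩
  · have hsub : Forms H ⊆ {t ∈ Forms H | IsSmooth t} ∪ {t ∈ Forms H | ¬ IsSmooth t} := by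
      intro t ht
      by_cases h : IsSmooth t
      · exact Or.inl ⟨ht, h⟩
      · exact Or.inr ⟨ht, h⟩
    have k6 := (Set.ncard_le_ncard hsub ((forms_finite H _).union (forms_finite H _))).trans
      (Set.ncard_union_le _ _)
    have k7 : ((Forms H).ncard : ℝ) ≤ (({t ∈ Forms H | IsSmooth t}.ncard : ℕ) : ℝ) +
        (({t ∈ Forms H | ¬ IsSmooth t}.ncard : ℕ) : ℝ) := by exact_mod_cast k6
    linarith
  · have hup : (H : ℝ) ^ (1 / 2 + η') ≤ (H : ℝ) ^ (1 / 2 + η) :=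
      Real.rpow_le_rpow_of_exponent_le hHR (by linarith)
    have hdn : (H : ℝ) ^ (1 / 2 - η) ≤ (H : ℝ) ^ (1 / 2 - η') :=
      Real.rpow_le_rpow_of_exponent_le hHR (by linarith)
    have mono : ∀ (t : Fin 4 → ℤ) (B B' : ℝ), B ≤ B' → HasSmallPoint B t →
        HasSmallPoint B' t := by
      rintro t B B' hB ⟨x, y, u, v, z, hp, hx, hy, hu, hv⟩
      exact ⟨x, y, u, v, z, hp, hx.trans hB, hy.trans hB, hu.trans hB, hv.trans hB⟩
    have hsub : {t ∈ Forms H | IsSmooth t ∧ AlphaOrthogonal t} ⊆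
        ({t ∈ Forms H | IsSmooth t ∧ AlphaOrthogonal t ∧
          HasSmallPoint ((H : ℝ) ^ (1 / 2 + η)) t ∧ ¬ HasSmallPoint ((H : ℝ) ^ (1 / 2 - η)) t} ∪
        {t ∈ Forms H | AlphaOrthogonal t ∧ ¬ HasSmallPoint ((H : ℝ) ^ (1 / 2 + η')) t}) ∪
        {t ∈ Forms H | HasSmallPoint ((H : ℝ) ^ (1 / 2 - η')) t} := by
      rintro t ⟨hF, hF1, hF2⟩
      by_cases a1 : HasSmallPoint ((H : ℝ) ^ (1 / 2 - η')) t
      · exact Or.inr ⟨hF, a1⟩
      · by_cases a2 : HasSmallPoint ((H : ℝ) ^ (1 / 2 + η')) t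
        · exact Or.inl (Or.inl ⟨hF, hF1, hF2, mono t _ _ hup a2,
            fun a3 => a1 (mono t _ _ hdn a3)⟩)
        · exact Or.inl (Or.inr ⟨hF, hF2, a2⟩)
    have k6 := (Set.ncard_le_ncard hsub (((forms_finite H _).union (forms_finite H _)).union
      (forms_finite H _))).trans ((Set.ncard_union_le _ _).trans
      (Nat.add_le_add_right (Set.ncard_union_le _ _) _))
    have k7 : (({t ∈ Forms H | IsSmooth t ∧ AlphaOrthogonal t}.ncard : ℕ) : ℝ) ≤
        (({t ∈ Forms H | IsSmooth t ∧ AlphaOrthogonal t ∧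
          HasSmallPoint ((H : ℝ) ^ (1 / 2 + η)) t ∧
          ¬ HasSmallPoint ((H : ℝ) ^ (1 / 2 - η)) t}.ncard : ℕ) : ℝ) +
        (({t ∈ Forms H | AlphaOrthogonal t ∧
          ¬ HasSmallPoint ((H : ℝ) ^ (1 / 2 + η')) t}.ncard : ℕ) : ℝ) +
        (({t ∈ Forms H | HasSmallPoint ((H : ℝ) ^ (1 / 2 - η')) t}.ncard : ℕ) : ℝ) := by
      exact_mod_cast k6
    have k9 := mul_le_mul_of_nonneg_left k3 hε.le
    linarith

end Pool.Agent.Results.MP_03ef3d_ag.QuarticBrauerManin
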