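import Pool.Agent.Ver.Final
import Pool.Agent.RHM.One

/-!
# The Hasse principle for 100% of Fano complete intersections in products of projective spaces

Let `k, r ≥ 1`, `d i j ≥ 2` and `∑ i, d i j ≤ n j` for all `j`, and `n 0 ≥ 3` if `k = 1`: then the
smooth complete intersections of multidegrees `d i` in `P^(n 0) × ... × P^(n (k - 1))` are Fano
varieties of dimension at least two (at least three if `k ≥ 2`).  For `k = 1` these are all types of
Fano complete intersections of dimension at least two in projective space, among them the cubic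
surfaces (`r = 1`, `n = d = 3`) and the del Pezzo surfaces of degree four (`r = 2`, `n = 4`,
`d = (2, 2)`).  Order the `r`-tuples of integral multihomogeneous
forms of multidegrees `d i` by the maximal absolute value `H` of their coefficients.

Then the smooth everywhere locally soluble members of the family have positive (lower) density, and
100% of them have a rational point, i.e. satisfy the Hasse principle; for every `ε > 0` all but a
proportion `ε` of them have an integral zero `x`, nonzero in each block, with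
`|x j| ^ (k * (n j + 1 - ∑ i, d i j)) ≤ Λ H ^ r` for all `j`, `Λ = Λ(ε)`.  For `k = 2`, `r = 1`,
`n = (2, 2)`, `d = (2, 2)` these are the Verra threefolds.
-/

namespace Pool.Agent.Results.MP_03ef3d_ag.RandomHasse

open MvPolynomial Pool.Agent.Ver Pool.Agent.Hhelper90.RCI Pool.Agent.HP

/-- The variables: the `j`-th block consists of the `n j + 1` homogeneous coordinates of the `j`-th
factor of `P^(n 0) × ... × P^(n (k - 1))`. -/
abbrev Variables {k : ℕ} (n : Fin k → ℕ) := (j : Fin k) × Fin (n j + 1)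

/-- `F` is multihomogeneous of multidegree `d`: each monomial of `F` has degree `d j` in the `j`-th
block of variables, for all `j`. -/
def IsMultihomogeneous {k : ℕ} {n : Fin k → ℕ} (d : Fin k → ℕ)
    (F : MvPolynomial (Variables n) ℤ) : Prop :=
  ∀ m : Variables n →₀ ℕ, F.coeff m ≠ 0 → ∀ j, ∑ c, m ⟨j, c⟩ = d j

/-- The set of `r`-tuples of integral multihomogeneous forms, the `i`-th of multidegree `d i`, all
of whose coefficients are at most `H` in absolute value. -/
def Forms {k : ℕ} (r : ℕ) (n : Fin k → ℕ) (d : Fin r → Fin k → ℕ) (H : ℕ) :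
    Set (Fin r → MvPolynomial (Variables n) ℤ) :=
  {F | ∀ i, IsMultihomogeneous (d i) (F i) ∧ ∀ m, |(F i).coeff m| ≤ (H : ℤ)}

/-- The value of `F` at a point given by a coordinate vector for each factor. -/
noncomputable def value {k : ℕ} {n : Fin k → ℕ} {K : Type*} [CommRing K]
    (x : (j : Fin k) → Fin (n j + 1) → K) (F : MvPolynomial (Variables n) ℤ) : K :=
  aeval (fun q : Variables n => x q.1 q.2) F

/-- The common zero locus of the forms in the product of projective spaces is a smooth complete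
intersection of codimension `r`: at each complex common zero, all of whose blocks are nonzero, the
gradients of the `F i` are linearly independent. -/
def IsSmoothCI {k r : ℕ} {n : Fin k → ℕ} (F : Fin r → MvPolynomial (Variables n) ℤ) : Prop :=
  ∀ z : (j : Fin k) → Fin (n j + 1) → ℂ, (∀ j, z j ≠ 0) → (∀ i, value z (F i) = 0) →
    LinearIndependent ℂ (fun i : Fin r => fun q : Variables n => value z (pderiv q (F i)))

/-- The forms have a common zero in the product of projective spaces over the field `K`. -/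
def HasPoint {k r : ℕ} {n : Fin k → ℕ} (K : Type) [Field K]
    (F : Fin r → MvPolynomial (Variables n) ℤ) : Prop :=
  ∃ x : (j : Fin k) → Fin (n j + 1) → K, (∀ j, x j ≠ 0) ∧ ∀ i, value x (F i) = 0

/-- The forms have common zeros over the reals and over the `p`-adic numbers for all primes `p`. -/
def EverywhereLocallySoluble {k r : ℕ} {n : Fin k → ℕ}
    (F : Fin r → MvPolynomial (Variables n) ℤ) : Prop :=
  HasPoint ℝ F ∧ ∀ (p : ℕ) [Fact p.Prime], HasPoint ℚ_[p] F

/-- The forms have a common integral zero `x`, nonzero in each block, with `|x j c| ^ s j ≤ T` for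
all `j`, `c`. -/
def HasSmallPoint {k r : ℕ} {n : Fin k → ℕ} (s : Fin k → ℕ) (T : ℝ)
    (F : Fin r → MvPolynomial (Variables n) ℤ) : Prop :=
  ∃ x : (j : Fin k) → Fin (n j + 1) → ℤ, (∀ j, x j ≠ 0) ∧ (∀ i, value x (F i) = 0) ∧
    ∀ j c, (|x j c| : ℝ) ^ s j ≤ T

/-- the tuple of polynomials with given coefficients -/
noncomputable def tup {k r : ℕ} {n : Fin k → ℕ} {e : Fin r → Fin k → ℕ} (a : MInd n e → ℤ) :
    Fin r → MvPolynomial (Variables n) ℤ :=
  fun i => mpoly fun m : MM n (fun j => e i j + 1) => a ⟨i, m⟩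

theorem forms_eq {k r : ℕ} {n : Fin k → ℕ} (e : Fin r → Fin k → ℕ) (H : ℕ) :
    Forms r n (fun i j => e i j + 1) H =
      tup '' (box (MInd n e) (H : ℤ) : Set (MInd n e → ℤ)) := by
  ext F
  constructor
  · intro hF
    refine ⟨fun q => (F q.1).coeff (mexp q.2), ?_, ?_⟩
    · rw [Finset.mem_coe]
      exact mem_box.2 fun q => (hF q.1).2 (mexp q.2)
    · funext i
      ext m
      by_cases hm : (F i).coeff m = 0
      · by_cases h : ∃ m' : MM n (fun j => e i j + 1), mexp m' = m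
        · obtain ⟨m', rfl⟩ := h
          exact coeff_mpoly _ _
        · rw [hm]
          exact coeff_mpoly_of _ _ fun m' hm' => h ⟨m', hm'⟩
      · obtain ⟨m', rfl⟩ := exists_mexp m ((hF i).1 m hm)
        exact coeff_mpoly _ _
  · rintro ⟨a, ha, rfl⟩ i
    rw [Finset.mem_coe] at ha
    have key : ∀ m : Variables n →₀ ℕ, (tup a i).coeff m ≠ 0 →
        ∃ m' : MM n (fun j => e i j + 1), mexp m' = m := by
      intro m hm
      by_contra h
      exact hm (coeff_mpoly_of _ _ fun m' hm' => h ⟨m', hm'⟩)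
    refine ⟨fun m hm j => ?_, fun m => ?_⟩
    · obtain ⟨m', rfl⟩ := key m hm
      exact sum_mexp m' j
    · by_cases hm : (tup a i).coeff m = 0
      · rw [hm, abs_zero]
        positivity
      · obtain ⟨m', rfl⟩ := key m hm
        show |(mpoly fun m : MM n (fun j => e i j + 1) => a ⟨i, m⟩).coeff (mexp m')| ≤ _
        rw [coeff_mpoly]
        exact mem_box.1 ha _

theorem tup_injective {k r : ℕ} {n : Fin k → ℕ} (e : Fin r → Fin k → ℕ) :
    Function.Injective (tup : (MInd n e → ℤ) → _) := by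
  intro a b hab
  funext ⟨i, m⟩
  have h1 := congrFun hab i
  have h2 : (mpoly fun m : MM n (fun j => e i j + 1) => a ⟨i, m⟩).coeff (mexp m) =
      (mpoly fun m : MM n (fun j => e i j + 1) => b ⟨i, m⟩).coeff (mexp m) := by
    unfold tup at h1
    rw [h1]
  rwa [coeff_mpoly, coeff_mpoly] at h2

theorem ncard_sep {k r : ℕ} {n : Fin k → ℕ} {e : Fin r → Fin k → ℕ} {H : ℕ}
    (P : (Fin r → MvPolynomial (Variables n) ℤ) → Prop)
    [DecidablePred fun a : MInd n e → ℤ => P (tup a)] :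
    {F ∈ Forms r n (fun i j => e i j + 1) H | P F}.ncard =
      ((box (MInd n e) (H : ℤ)).filter fun a => P (tup a)).card := by
  have h1 : {F ∈ Forms r n (fun i j => e i j + 1) H | P F} = tup ''
      (((box (MInd n e) (H : ℤ)).filter fun a => P (tup a) : Finset _) :
        Set (MInd n e → ℤ)) := by
    rw [forms_eq]
    ext F
    constructor
    · rintro ⟨⟨a, ha, rfl⟩, hP⟩
      exact ⟨a, by rw [Finset.mem_coe, Finset.mem_filter]; exact ⟨ha, hP⟩, rfl⟩
    · rintro ⟨a, ha, rfl⟩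
      rw [Finset.mem_coe, Finset.mem_filter] at ha
      exact ⟨⟨a, ha.1, rfl⟩, ha.2⟩
  rw [h1, Set.ncard_image_of_injective _ (tup_injective e), Set.ncard_coe_finset]

theorem ncard_forms {k r : ℕ} {n : Fin k → ℕ} (e : Fin r → Fin k → ℕ) (H : ℕ) :
    ((Forms r n (fun i j => e i j + 1) H).ncard : ℝ) =
      (2 * (H : ℝ) + 1) ^ Fintype.card (MInd n e) := by
  rw [forms_eq, Set.ncard_image_of_injective _ (tup_injective e), Set.ncard_coe_finset, card_box]
  push_cast
  rfl

theorem value_tup {k r : ℕ} {n : Fin k → ℕ} {e : Fin r → Fin k → ℕ} {R : Type*} [CommRing R]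
    (a : MInd n e → ℤ) (x : Pt n R) (i : Fin r) :
    value x (tup a i) = mv (fun q => (a q : R)) x i := by
  unfold tup value
  rw [aeval_mpoly]
  rfl

theorem value_pderiv_tup {k r : ℕ} {n : Fin k → ℕ} {e : Fin r → Fin k → ℕ} {R : Type*}
    [CommRing R] (a : MInd n e → ℤ) (x : Pt n R) (i : Fin r) (q : Variables n) :
    value x (pderiv q (tup a i)) = mjac (fun q => (a q : R)) x i q := by
  unfold tup value
  rw [aeval_pderiv_mpoly]
  rfl

theorem els_iff {k r : ℕ} {n : Fin k → ℕ} {e : Fin r → Fin k → ℕ} (a : MInd n e → ℤ) :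
    EverywhereLocallySoluble (tup a) ↔ MELS a := by
  unfold EverywhereLocallySoluble HasPoint MELS
  simp only [value_tup]

theorem small_of {k r : ℕ} {n : Fin k → ℕ} {e : Fin r → Fin k → ℕ} (s : Fin k → ℕ) (T : ℝ)
    (a : MInd n e → ℤ) (h : MSmallZ s T a) : HasSmallPoint s T (tup a) := by
  obtain ⟨x, hx, hx0, hxT⟩ := h
  refine ⟨x, hx, fun i => ?_, fun j c => ?_⟩
  · rw [value_tup]
    exact congrFun hx0 i
  · have h1 := norm_le_pi_norm (x j) c
    rw [Int.norm_eq_abs] at h1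
    exact (pow_le_pow_left₀ (abs_nonneg _) h1 (s j)).trans (hxT j)

theorem els_of_point {k r : ℕ} {n : Fin k → ℕ} {e : Fin r → Fin k → ℕ} (a : MInd n e → ℤ)
    (h : ∃ x : Pt n ℤ, (∀ j, x j ≠ 0) ∧ mv a x = 0) : EverywhereLocallySoluble (tup a) := by
  obtain ⟨x, hx, hx0⟩ := h
  have key : ∀ (K : Type) [Field K] [CharZero K], HasPoint K (tup a) := by
    intro K _ _
    refine ⟨fun j c => ((x j c : ℤ) : K), ?_, fun i => ?_⟩
    · intro j h0
      apply hx j
      funext c
      have := congrFun h0 c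
      simpa using this
    · rw [value_tup, mv_cast_ring, hx0]
      simp
  exact ⟨key ℝ, fun p _ => key ℚ_[p]⟩

/-- the degrees are of the form `e i j + 1` with `e i j ≥ 1` -/
theorem exists_e {k r : ℕ} (n : Fin k → ℕ) (d : Fin r → Fin k → ℕ) (hk : 2 ≤ k) (hr : 1 ≤ r)
    (hd : ∀ i j, 2 ≤ d i j) (hn : ∀ j, ∑ i, d i j ≤ n j) :
    ∃ e : Fin r → Fin k → ℕ, d = (fun i j => e i j + 1) ∧ Stmt.Hyp k r n e := by
  refine ⟨fun i j => d i j - 1, ?_, hk, hr, fun i j => ?_, fun j => ?_⟩
  · funext i j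
    have := hd i j
    show d i j = d i j - 1 + 1
    omega
  · have := hd i j
    show 1 ≤ d i j - 1
    omega
  · refine le_trans (le_of_eq ?_) (hn j)
    unfold dg
    refine Finset.sum_congr rfl fun i _ => ?_
    have := hd i j
    show d i j - 1 + 1 = d i j
    omega

/-- all but a small proportion of the everywhere locally soluble tuples have a small zero -/
theorem part_one (k r : ℕ) (n : Fin k → ℕ) (d : Fin r → Fin k → ℕ)
    (hk : 2 ≤ k) (hr : 1 ≤ r) (hd : ∀ i j, 2 ≤ d i j) (hn : ∀ j, ∑ i, d i j ≤ n j)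
    (ε : ℝ) (hε : 0 < ε) :
    ∃ Λ : ℝ, 0 < Λ ∧ ∃ H₀ : ℕ, ∀ H : ℕ, H₀ ≤ H →
      (({F ∈ Forms r n d H | EverywhereLocallySoluble F ∧
        ¬ HasSmallPoint (fun j => k * (n j + 1 - ∑ i, d i j)) (Λ * (H : ℝ) ^ r) F}.ncard : ℕ) : ℝ) ≤
        ε * ((Forms r n d H).ncard : ℝ) := by
  classical
  obtain ⟨e, rfl, he⟩ := exists_e n d hk hr hd hn
  obtain ⟨Λ, hΛ, H0, hmain⟩ := mainAll k r n e he ε hε
  refine ⟨Λ, hΛ, H0, fun H hH => ?_⟩
  rw [ncard_forms, ncard_sep]
  refine le_trans ?_ (hmain H hH)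
  rw [Nat.cast_le]
  refine Finset.card_le_card ?_
  intro a ha
  rw [Finset.mem_filter] at ha ⊢
  exact ⟨ha.1, (els_iff a).1 ha.2.1, fun h => ha.2.2 (small_of _ _ a h)⟩

/-- a positive proportion of the tuples defines a smooth everywhere locally soluble complete
intersection -/
theorem part_two (k r : ℕ) (n : Fin k → ℕ) (d : Fin r → Fin k → ℕ)
    (hk : 2 ≤ k) (hr : 1 ≤ r) (hd : ∀ i j, 2 ≤ d i j) (hn : ∀ j, ∑ i, d i j ≤ n j) :
    ∃ δ : ℝ, 0 < δ ∧ ∃ H₀ : ℕ, ∀ H : ℕ, H₀ ≤ H →
      δ * ((Forms r n d H).ncard : ℝ) ≤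
        (({F ∈ Forms r n d H | IsSmoothCI F ∧ EverywhereLocallySoluble F}.ncard : ℕ) : ℝ) := by
  classical
  obtain ⟨e, rfl, he⟩ := exists_e n d hk hr hd hn
  obtain ⟨c, hc, H0, hpos⟩ := positiveAll k r n e he
  refine ⟨c, hc, H0, fun H hH => ?_⟩
  rw [ncard_forms, ncard_sep]
  refine (hpos H hH).trans ?_
  rw [Nat.cast_le]
  refine Finset.card_le_card ?_
  intro a ha
  rw [Finset.mem_filter] at ha ⊢
  obtain ⟨ha1, ha2, ha3⟩ := ha
  refine ⟨ha1, fun z hz hz0 => ?_, els_of_point a ha2⟩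
  have h := ha3 z hz fun i => by
    rw [← value_tup]
    exact hz0 i
  have h1 : (fun i : Fin r => fun q : Variables n => value z (pderiv q (tup a i))) =
      (fun i : Fin r => fun q : Var n => mjac (fun s => (a s : ℂ)) z i q) := by
    funext i q
    exact value_pderiv_tup a z i q
  rw [h1]
  exact h

/-- the theorem for `k ≥ 2` -/
theorem result_two (k r : ℕ) (n : Fin k → ℕ) (d : Fin r → Fin k → ℕ) (hk : 2 ≤ k) (hr : 1 ≤ r)
    (hd : ∀ i j, 2 ≤ d i j) (hn : ∀ j, ∑ i, d i j ≤ n j) :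
    ∃ c : ℝ, 0 < c ∧ ∀ ε : ℝ, 0 < ε → ∃ Λ : ℝ, 0 < Λ ∧ ∃ H₀ : ℕ, ∀ H : ℕ, H₀ ≤ H →
      c * ((Forms r n d H).ncard : ℝ) ≤
        (({F ∈ Forms r n d H | IsSmoothCI F ∧ EverywhereLocallySoluble F}.ncard : ℕ) : ℝ) ∧
      (1 - ε) * (({F ∈ Forms r n d H | IsSmoothCI F ∧
        EverywhereLocallySoluble F}.ncard : ℕ) : ℝ) ≤
        (({F ∈ Forms r n d H | IsSmoothCI F ∧ EverywhereLocallySoluble F ∧
          HasSmallPoint (fun j => k * (n j + 1 - ∑ i, d i j)) (Λ * (H : ℝ) ^ r) F}.ncard : ℕ) :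
            ℝ) := by
  classical
  obtain ⟨c, hc, H1, h1⟩ := part_two k r n d hk hr hd hn
  refine ⟨c, hc, fun ε hε => ?_⟩
  obtain ⟨Λ, hΛ, H2, h2⟩ := part_one k r n d hk hr hd hn (ε * c) (by positivity)
  refine ⟨Λ, hΛ, max H1 H2, fun H hH => ?_⟩
  have hfin : (Forms r n d H).Finite := by
    obtain ⟨e, rfl, -⟩ := exists_e n d hk hr hd hn
    rw [forms_eq]
    exact (Finset.finite_toSet _).image _
  have h3 := h1 H (le_trans (le_max_left _ _) hH)
  have h4 := h2 H (le_trans (le_max_right _ _) hH)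
  refine ⟨h3, ?_⟩
  set s : Fin k → ℕ := fun j => k * (n j + 1 - ∑ i, d i j) with hs
  set T : ℝ := Λ * (H : ℝ) ^ r with hT
  have hsub : {F ∈ Forms r n d H | IsSmoothCI F ∧ EverywhereLocallySoluble F} ⊆
      {F ∈ Forms r n d H | IsSmoothCI F ∧ EverywhereLocallySoluble F ∧ HasSmallPoint s T F} ∪
      {F ∈ Forms r n d H | EverywhereLocallySoluble F ∧ ¬ HasSmallPoint s T F} := by
    rintro F ⟨hF1, hF2, hF3⟩
    by_cases h : HasSmallPoint s T F
    · exact Or.inl ⟨hF1, hF2, hF3, h⟩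
    · exact Or.inr ⟨hF1, hF3, h⟩
  have h5 := (Set.ncard_le_ncard hsub ((hfin.subset (Set.sep_subset _ _)).union
    (hfin.subset (Set.sep_subset _ _)))).trans (Set.ncard_union_le _ _)
  have h6 : (({F ∈ Forms r n d H | IsSmoothCI F ∧ EverywhereLocallySoluble F}.ncard : ℕ) : ℝ) ≤
      (({F ∈ Forms r n d H | IsSmoothCI F ∧ EverywhereLocallySoluble F ∧
          HasSmallPoint s T F}.ncard : ℕ) : ℝ) +
      (({F ∈ Forms r n d H | EverywhereLocallySoluble F ∧
        ¬ HasSmallPoint s T F}.ncard : ℕ) : ℝ) := by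
    exact_mod_cast h5
  have h7 := mul_le_mul_of_nonneg_left h3 hε.le
  linarith

section One

/-- the variables in the case `k = 1` -/
noncomputable def vEquiv (n : Fin 1 → ℕ) : Fin (n 0 + 1) ≃ Variables n :=
  Equiv.ofBijective (fun c => (⟨0, c⟩ : Variables n)) <| by
    constructor
    · intro a b hab
      have h : (⟨0, a⟩ : Variables n) = ⟨0, b⟩ := hab
      simpa using h
    · rintro ⟨j, c⟩
      obtain rfl : j = 0 := Subsingleton.elim _ _
      exact ⟨c, rfl⟩

theorem vEquiv_apply (n : Fin 1 → ℕ) (c : Fin (n 0 + 1)) : vEquiv n c = ⟨0, c⟩ := rfl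

/-- tuples of forms in the case `k = 1` -/
noncomputable def ren {r : ℕ} (n : Fin 1 → ℕ) (F : Fin r → MvPolynomial (Fin (n 0 + 1)) ℤ) :
    Fin r → MvPolynomial (Variables n) ℤ := fun i => rename (vEquiv n) (F i)

theorem ren_injective {r : ℕ} (n : Fin 1 → ℕ) : Function.Injective (ren (r := r) n) := by
  intro F G h
  funext i
  exact rename_injective _ (vEquiv n).injective (congrFun h i)

theorem coeff_ren (n : Fin 1 → ℕ) (F : MvPolynomial (Fin (n 0 + 1)) ℤ) (m : Variables n →₀ ℕ) :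
    (rename (vEquiv n) F).coeff m = F.coeff (m.mapDomain (vEquiv n).symm) := by
  have h : m = (m.mapDomain (vEquiv n).symm).mapDomain (vEquiv n) := by
    rw [← Finsupp.mapDomain_comp, Equiv.self_comp_symm, Finsupp.mapDomain_id]
  conv_lhs => rw [h]
  exact coeff_rename_mapDomain _ (vEquiv n).injective _ _

theorem degree_map (n : Fin 1 → ℕ) (m : Variables n →₀ ℕ) :
    (m.mapDomain (vEquiv n).symm).degree = ∑ c, m ⟨0, c⟩ := by
  rw [Finsupp.degree_eq_sum]
  refine Finset.sum_congr rfl fun c _ => ?_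
  rw [Finsupp.mapDomain_equiv_apply, Equiv.symm_symm, vEquiv_apply]

theorem homogeneous_iff (n : Fin 1 → ℕ) (d : Fin 1 → ℕ) (F : MvPolynomial (Fin (n 0 + 1)) ℤ) :
    IsMultihomogeneous d (rename (vEquiv n) F) ↔ F.IsHomogeneous (d 0) := by
  constructor
  · intro h m hm
    have h1 := h (m.mapDomain (vEquiv n)) (by
      rw [coeff_rename_mapDomain _ (vEquiv n).injective]
      exact hm) 0
    rw [← degree_map, ← Finsupp.mapDomain_comp, Equiv.symm_comp_self, Finsupp.mapDomain_id] at h1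
    rw [← h1]
    exact (Finsupp.degree_eq_weight_one (R := ℕ) ▸ rfl)
  · intro h m hm j
    obtain rfl : j = 0 := Subsingleton.elim _ _
    rw [coeff_ren] at hm
    have h1 := h hm
    rw [← degree_map, ← h1]
    exact (Finsupp.degree_eq_weight_one (R := ℕ) ▸ rfl)

theorem forms_one {r : ℕ} (n : Fin 1 → ℕ) (d : Fin r → Fin 1 → ℕ) (H : ℕ) :
    Forms r n d H = ren n '' RHM.One.Forms r (n 0) (fun i => d i 0) H := by
  ext G
  constructor
  · intro hG
    refine ⟨fun i => rename (vEquiv n).symm (G i), fun i => ?_, ?_⟩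
    · have hG1 : rename (vEquiv n) (rename (vEquiv n).symm (G i)) = G i := by
        rw [rename_rename, Equiv.self_comp_symm, rename_id, AlgHom.id_apply]
      refine ⟨?_, fun m => ?_⟩
      · rw [← homogeneous_iff, hG1]
        exact (hG i).1
      · have h2 := (hG i).2 (m.mapDomain (vEquiv n))
        rw [← hG1, coeff_rename_mapDomain _ (vEquiv n).injective] at h2
        exact h2
    · funext i
      show rename (vEquiv n) (rename (vEquiv n).symm (G i)) = G i
      rw [rename_rename, Equiv.self_comp_symm, rename_id, AlgHom.id_apply]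
  · rintro ⟨F, hF, rfl⟩ i
    refine ⟨(homogeneous_iff n (d i) (F i)).2 (hF i).1, fun m => ?_⟩
    show |(rename (vEquiv n) (F i)).coeff m| ≤ _
    rw [coeff_ren]
    exact (hF i).2 _

theorem value_ren {K : Type*} [CommRing K] (n : Fin 1 → ℕ)
    (x : (j : Fin 1) → Fin (n j + 1) → K) (F : MvPolynomial (Fin (n 0 + 1)) ℤ) :
    value x (rename (vEquiv n) F) = aeval (x 0) F := by
  unfold value
  rw [aeval_rename]
  rfl

theorem blocks_ne {K : Type*} [CommRing K] (n : Fin 1 → ℕ) (x : (j : Fin 1) → Fin (n j + 1) → K) :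
    (∀ j, x j ≠ 0) ↔ x 0 ≠ 0 := by
  constructor
  · exact fun h => h 0
  · intro h j
    obtain rfl : j = 0 := Subsingleton.elim _ _
    exact h

/-- a point with one block -/
def blk {K : Type*} (n : Fin 1 → ℕ) (x : Fin (n 0 + 1) → K) : (j : Fin 1) → Fin (n j + 1) → K :=
  fun j => (Subsingleton.elim 0 j : (0 : Fin 1) = j) ▸ x

theorem hasPoint_ren {r : ℕ} (K : Type) [Field K] (n : Fin 1 → ℕ)
    (F : Fin r → MvPolynomial (Fin (n 0 + 1)) ℤ) :
    HasPoint K (ren n F) ↔ RHM.One.HasPoint K F := by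
  constructor
  · rintro ⟨x, hx, h⟩
    refine ⟨x 0, hx 0, fun i => ?_⟩
    rw [← value_ren]
    exact h i
  · rintro ⟨x, hx, h⟩
    refine ⟨blk n x, (blocks_ne n _).2 hx, fun i => ?_⟩
    exact (value_ren n (blk n x) (F i)).trans (h i)

theorem els_ren {r : ℕ} (n : Fin 1 → ℕ) (F : Fin r → MvPolynomial (Fin (n 0 + 1)) ℤ) :
    EverywhereLocallySoluble (ren n F) ↔ RHM.One.EverywhereLocallySoluble F := by
  unfold EverywhereLocallySoluble RHM.One.EverywhereLocallySoluble
  simp only [hasPoint_ren]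

theorem small_ren {r : ℕ} (n : Fin 1 → ℕ) (s : ℕ) (T : ℝ) (S : Fin 1 → ℕ) (hS : S 0 = s)
    (F : Fin r → MvPolynomial (Fin (n 0 + 1)) ℤ) :
    HasSmallPoint S T (ren n F) ↔ RHM.One.HasSmallPoint s T F := by
  subst hS
  constructor
  · rintro ⟨x, hx, h, hT⟩
    refine ⟨x 0, hx 0, fun i => ?_, hT 0⟩
    rw [← value_ren]
    exact h i
  · rintro ⟨x, hx, h, hT⟩
    refine ⟨blk n x, (blocks_ne n _).2 hx, fun i => ?_, fun j => ?_⟩
    · exact (value_ren n (blk n x) (F i)).trans (h i)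
    · obtain rfl : j = 0 := Subsingleton.elim _ _
      exact hT

theorem smooth_ren {r : ℕ} (n : Fin 1 → ℕ) (F : Fin r → MvPolynomial (Fin (n 0 + 1)) ℤ) :
    IsSmoothCI (ren n F) ↔ RHM.One.IsSmoothCI F := by
  have key : ∀ z : (j : Fin 1) → Fin (n j + 1) → ℂ,
      LinearIndependent ℂ (fun i : Fin r => fun q : Variables n =>
        value z (pderiv q (ren n F i))) ↔
      LinearIndependent ℂ (fun i : Fin r => fun c : Fin (n 0 + 1) =>
        aeval (z 0) (pderiv c (F i))) := by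
    intro z
    rw [← LinearMap.linearIndependent_iff (LinearEquiv.funCongrLeft ℂ ℂ (vEquiv n)).toLinearMap
      (LinearEquiv.ker _)]
    have h : (⇑(LinearEquiv.funCongrLeft ℂ ℂ (vEquiv n)).toLinearMap ∘
        fun i : Fin r => fun q : Variables n => value z (pderiv q (ren n F i))) =
        fun i : Fin r => fun c : Fin (n 0 + 1) => aeval (z 0) (pderiv c (F i)) := by
      funext i c
      show value z (pderiv (vEquiv n c) (rename (vEquiv n) (F i))) = _
      rw [pderiv_rename (vEquiv n).injective, value_ren]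
    rw [h]
  constructor
  · intro h z hz hz0
    exact (key (blk n z)).1 (h (blk n z) ((blocks_ne n _).2 hz) fun i =>
      (value_ren n (blk n z) (F i)).trans (hz0 i))
  · intro h z hz hz0
    refine (key z).2 (h (z 0) (hz 0) fun i => ?_)
    rw [← value_ren]
    exact hz0 i

theorem ncard_ren {r : ℕ} (n : Fin 1 → ℕ) (d : Fin r → Fin 1 → ℕ) (H : ℕ)
    (P : (Fin r → MvPolynomial (Variables n) ℤ) → Prop)
    (P' : (Fin r → MvPolynomial (Fin (n 0 + 1)) ℤ) → Prop) (h : ∀ F, P (ren n F) ↔ P' F) :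
    {F ∈ Forms r n d H | P F}.ncard = {F ∈ RHM.One.Forms r (n 0) (fun i => d i 0) H | P' F}.ncard := by
  have h1 : {F ∈ Forms r n d H | P F} =
      ren n '' {F ∈ RHM.One.Forms r (n 0) (fun i => d i 0) H | P' F} := by
    rw [forms_one]
    ext G
    constructor
    · rintro ⟨⟨F, hF, rfl⟩, hP⟩
      exact ⟨F, ⟨hF, (h F).1 hP⟩, rfl⟩
    · rintro ⟨F, ⟨hF, hP⟩, rfl⟩
      exact ⟨⟨F, hF, rfl⟩, (h F).2 hP⟩
  rw [h1, Set.ncard_image_of_injective _ (ren_injective n)]

/-- the theorem for `k = 1` -/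
theorem result_one (r : ℕ) (n : Fin 1 → ℕ) (d : Fin r → Fin 1 → ℕ) (hr : 1 ≤ r)
    (hd : ∀ i j, 2 ≤ d i j) (hn : ∀ j, ∑ i, d i j ≤ n j) (hn3 : ∀ j, 3 ≤ n j) :
    ∃ c : ℝ, 0 < c ∧ ∀ ε : ℝ, 0 < ε → ∃ Λ : ℝ, 0 < Λ ∧ ∃ H₀ : ℕ, ∀ H : ℕ, H₀ ≤ H →
      c * ((Forms r n d H).ncard : ℝ) ≤
        (({F ∈ Forms r n d H | IsSmoothCI F ∧ EverywhereLocallySoluble F}.ncard : ℕ) : ℝ) ∧
      (1 - ε) * (({F ∈ Forms r n d H | IsSmoothCI F ∧
        EverywhereLocallySoluble F}.ncard : ℕ) : ℝ) ≤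
        (({F ∈ Forms r n d H | IsSmoothCI F ∧ EverywhereLocallySoluble F ∧
          HasSmallPoint (fun j => 1 * (n j + 1 - ∑ i, d i j)) (Λ * (H : ℝ) ^ r) F}.ncard : ℕ) :
            ℝ) := by
  obtain ⟨c, hc, h⟩ := RHM.One.main r (n 0) (fun i => d i 0) hr (fun i => hd i 0) (hn 0) (hn3 0)
  refine ⟨c, hc, fun ε hε => ?_⟩
  obtain ⟨Λ, hΛ, H₀, h1⟩ := h ε hε
  refine ⟨Λ, hΛ, H₀, fun H hH => ?_⟩
  have h2 := h1 H hH
  have e1 : (Forms r n d H).ncard = (RHM.One.Forms r (n 0) (fun i => d i 0) H).ncard := by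
    rw [forms_one, Set.ncard_image_of_injective _ (ren_injective n)]
  have e2 := ncard_ren n d H (fun F => IsSmoothCI F ∧ EverywhereLocallySoluble F)
    (fun F => RHM.One.IsSmoothCI F ∧ RHM.One.EverywhereLocallySoluble F)
    (fun F => by rw [smooth_ren, els_ren])
  have e3 := ncard_ren n d H (fun F => IsSmoothCI F ∧ EverywhereLocallySoluble F ∧
      HasSmallPoint (fun j => 1 * (n j + 1 - ∑ i, d i j)) (Λ * (H : ℝ) ^ r) F)
    (fun F => RHM.One.IsSmoothCI F ∧ RHM.One.EverywhereLocallySoluble F ∧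
      RHM.One.HasSmallPoint (n 0 + 1 - ∑ i, d i 0) (Λ * (H : ℝ) ^ r) F)
    (fun F => by rw [smooth_ren, els_ren, small_ren n (n 0 + 1 - ∑ i, d i 0) _ _ (one_mul _)])
  rw [e1, e2, e3]
  exact h2

end One

/-- **The Hasse principle for 100% of Fano complete intersections in products of projective
spaces.**  Let `k, r ≥ 1`, `d i j ≥ 2` and `∑ i, d i j ≤ n j` for all `j`, and `n 0 ≥ 3` if `k = 1`;
order the `r`-tuples of integral multihomogeneous forms of multidegrees `d i` in `k` blocks of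
`n j + 1` variables by the maximal absolute value `H` of the coefficients.  There is `c > 0` such
that for every `ε > 0` there are `Λ` and `H₀` with the following property for all `H ≥ H₀`: the
tuples which define a smooth everywhere locally soluble complete intersection in
`P^(n 0) × ... × P^(n (k - 1))` are at least a proportion `c` of all tuples, and all but a
proportion `ε` of them have an integral zero `x`, nonzero in each block, with
`|x j c| ^ (k * (n j + 1 - ∑ i, d i j)) ≤ Λ H ^ r` for all `j`, `c`. -/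
theorem result (k r : ℕ) (n : Fin k → ℕ) (d : Fin r → Fin k → ℕ) (hk : 1 ≤ k) (hr : 1 ≤ r)
    (hd : ∀ i j, 2 ≤ d i j) (hn : ∀ j, ∑ i, d i j ≤ n j) (hn3 : k = 1 → ∀ j, 3 ≤ n j) :
    ∃ c : ℝ, 0 < c ∧ ∀ ε : ℝ, 0 < ε → ∃ Λ : ℝ, 0 < Λ ∧ ∃ H₀ : ℕ, ∀ H : ℕ, H₀ ≤ H →
      c * ((Forms r n d H).ncard : ℝ) ≤
        (({F ∈ Forms r n d H | IsSmoothCI F ∧ EverywhereLocallySoluble F}.ncard : ℕ) : ℝ) ∧
      (1 - ε) * (({F ∈ Forms r n d H | IsSmoothCI F ∧
        EverywhereLocallySoluble F}.ncard : ℕ) : ℝ) ≤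
        (({F ∈ Forms r n d H | IsSmoothCI F ∧ EverywhereLocallySoluble F ∧
          HasSmallPoint (fun j => k * (n j + 1 - ∑ i, d i j)) (Λ * (H : ℝ) ^ r) F}.ncard : ℕ) :
            ℝ) := by
  rcases Nat.lt_or_ge k 2 with h | h
  · obtain rfl : k = 1 := by omega
    exact result_one r n d hr hd hn (hn3 rfl)
  · exact result_two k r n d h hr hd hn

end Pool.Agent.Results.MP_03ef3d_ag.RandomHasse
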