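import Pool.Agent.BMN.Orth
import Pool.Agent.BMN.Fin
import Pool.Agent.BMN.Low

/-!
# Cubic surfaces of Swinnerton-Dyer type: the Brauer-Manin obstruction is the only obstruction to the
Hasse principle for 100% of the surfaces `u v T = N(x, y, u + v)`

Let `K = ℚ(ζ_7 + 1/ζ_7) = ℚ(w)`, `w ^ 3 - 7 w ^ 2 + 14 w - 7 = 0`, a cyclic cubic field, and let
`N(x, y, z)` be the norm of `x + y w + z w ^ 2`.  For `t ∈ ℤ^4` let `X_t ⊂ ℙ^3` be the cubic surface
`u v T = N(x, y, u + v)`, where `T = t_0 x + t_1 y + t_2 u + t_3 v` is an arbitrary linear form; the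
classical counterexample of Swinnerton-Dyer (1962) to the Hasse principle for cubic surfaces is a
surface `u v T = N` over the same field.  The class of the cyclic algebra `(K / ℚ, u / v)` belongs to
the Brauer group of the smooth `X_t`; the classes of `(K / ℚ, T / u)` and `(K / ℚ, v / T)` are equal to
it, since `u v T` is a norm.

Order the `t` with coprime coordinates by `H`: `|t_0|, |t_1|, |t_2| ≤ H`, `|t_3| ≤ H ^ 2`.  Of the
2400 nonzero classes of `t` modulo 7, leave out the 16 classes `Exc` (`t_0 ≡ t_1 ≡ 0` and `t_2 + t_3`,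
`t_2 - t_3` are no cubes).  All other `X_t` are everywhere locally soluble; there is no adelic point
orthogonal to the class exactly in the 24 classes `Obs` (1/100 of all `t`), and of the others 100% have
a rational point, even an integral point `(x, y, u, 1)` with `|x|, |y|, |u| ≤ Λ H`; but 100% have no
rational point of height at most `H ^ (1 - η)`.
-/

namespace Pool.Agent.Results.MP_03ef3d_ag.SwinnertonDyerCubics

/-- the norm of `x + y w + z w ^ 2`, `w ^ 3 = 7 w ^ 2 - 14 w + 7` -/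
def nrm {K : Type*} [CommRing K] (x y z : K) : K :=
  x ^ 3 + 7 * x ^ 2 * y + 21 * x ^ 2 * z + 14 * x * y ^ 2 + 77 * x * y * z + 98 * x * z ^ 2 +
    7 * y ^ 3 + 49 * y ^ 2 * z + 98 * y * z ^ 2 + 49 * z ^ 3

/-- the linear form `T` -/
def lform {K : Type*} [CommRing K] (t : Fin 4 → ℤ) (x y u v : K) : K :=
  t 0 * x + t 1 * y + t 2 * u + t 3 * v

/-- `(x : y : u : v)` is a point of the cubic surface `X_t` -/
def IsPoint {K : Type*} [CommRing K] (t : Fin 4 → ℤ) (x y u v : K) : Prop :=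
  ¬ (x = 0 ∧ y = 0 ∧ u = 0 ∧ v = 0) ∧ u * v * lform t x y u v = nrm x y (u + v)

/-- `X_t` has a point over `K` -/
def HasPoint (K : Type*) [CommRing K] (t : Fin 4 → ℤ) : Prop := ∃ x y u v : K, IsPoint t x y u v

/-- `X_t` has points over `ℝ` and all `ℚ_p` -/
def EverywhereLocallySoluble (t : Fin 4 → ℤ) : Prop :=
  HasPoint ℝ t ∧ ∀ (p : ℕ) [Fact p.Prime], HasPoint ℚ_[p] t

/-- the complex surface `X_t` is smooth: the gradient of `u v T - N(x, y, u + v)` does not vanish at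
any point of `X_t` -/
def IsSmooth (t : Fin 4 → ℤ) : Prop := ∀ x y u v : ℂ, IsPoint t x y u v → ¬
  (u * v * t 0 = 3 * x ^ 2 + 14 * x * y + 42 * x * (u + v) + 14 * y ^ 2 + 77 * y * (u + v) +
      98 * (u + v) ^ 2 ∧
    u * v * t 1 = 7 * x ^ 2 + 28 * x * y + 77 * x * (u + v) + 21 * y ^ 2 +
      98 * y * (u + v) + 98 * (u + v) ^ 2 ∧
    v * lform t x y u v + u * v * t 2 = 21 * x ^ 2 + 77 * x * y + 196 * x * (u + v) +
      49 * y ^ 2 + 196 * y * (u + v) + 147 * (u + v) ^ 2 ∧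
    u * lform t x y u v + u * v * t 3 = 21 * x ^ 2 + 77 * x * y + 196 * x * (u + v) +
      49 * y ^ 2 + 196 * y * (u + v) + 147 * (u + v) ^ 2)

/-- the homomorphism from the units modulo 7 onto `ℤ / 3` with kernel `{1, 6}` and `3 ↦ 1` -/
def lg : ZMod 7 → ZMod 3 := ![0, 0, 2, 1, 1, 2, 0]

open scoped Classical in
/-- the residue in `{0, ..., p - 1}` of the unit part `f p ^ (-v(f))` of a nonzero `f ∈ ℚ_p` -/
noncomputable def ures (p : ℕ) [Fact p.Prime] (f : ℚ_[p]) : ℕ :=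
  if h : ‖f * (p : ℚ_[p]) ^ (-f.valuation)‖ ≤ 1 then
    (PadicInt.toZMod (⟨f * (p : ℚ_[p]) ^ (-f.valuation), h⟩ : ℤ_[p])).val else 0

/-- the local invariant, in `ℤ / 3`, of the cyclic algebra `(K / ℚ, f)` at `p`: `v_p(f)` times the
Frobenius class `lg p` if `p ≠ 7` (`K` is unramified at `p`, and split if `lg p = 0`), minus `lg` of
the unit part of `f` if `p = 7` -/
noncomputable def inv3 (p : ℕ) [Fact p.Prime] (f : ℚ_[p]) : ZMod 3 :=
  if p = 7 then -lg (ures p f : ZMod 7) else (f.valuation : ZMod 3) * lg (p : ZMod 7)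

instance primesFact (p : Nat.Primes) : Fact (p : ℕ).Prime := ⟨p.2⟩

/-- There is an adelic point of `X_t` orthogonal to the class of `(K / ℚ, u / v)` in the Brauer
group: the local invariants vanish at almost all primes and have sum `0` (at the real place the
invariant vanishes, since `K` is totally real). -/
def Orthogonal (t : Fin 4 → ℤ) : Prop :=
  HasPoint ℝ t ∧ ∃ b : ∀ p : Nat.Primes, Fin 4 → ℚ_[p],
    (∀ p, IsPoint t (b p 0) (b p 1) (b p 2) (b p 3)) ∧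
    {p : Nat.Primes | inv3 p (b p 2 / b p 3) ≠ 0}.Finite ∧
    ∑ᶠ p : Nat.Primes, inv3 p (b p 2 / b p 3) = 0

/-- the four coefficients of `T` are coprime -/
def Prim (t : Fin 4 → ℤ) : Prop := ∀ d : ℤ, d ∣ t 0 → d ∣ t 1 → d ∣ t 2 → d ∣ t 3 → IsUnit d

/-- `n` is a cube modulo 7 -/
def Cub7 (n : ℤ) : Prop := n % 7 = 0 ∨ n % 7 = 1 ∨ n % 7 = 6

/-- 24 classes modulo 7: `t_1 = 0`, `t_0 ≠ 0`, `t_0 ^ 3 + t_2 t_3 = 0`, `t_2` is no cube -/
def Obs (t : Fin 4 → ℤ) : Prop :=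
  (7 : ℤ) ∣ t 1 ∧ ¬ (7 : ℤ) ∣ t 0 ∧ (7 : ℤ) ∣ t 0 ^ 3 + t 2 * t 3 ∧ ¬ Cub7 (t 2)

/-- 16 exceptional classes modulo 7: `t_0 = t_1 = 0`, and `t_2 + t_3`, `t_2 - t_3` are no cubes -/
def Exc (t : Fin 4 → ℤ) : Prop :=
  (7 : ℤ) ∣ t 0 ∧ (7 : ℤ) ∣ t 1 ∧ ¬ Cub7 (t 2 + t 3) ∧ ¬ Cub7 (t 2 - t 3)

/-- the primitive `t` with `|t_0|, |t_1|, |t_2| ≤ H`, `|t_3| ≤ H ^ 2` -/
def Forms (H : ℕ) : Set (Fin 4 → ℤ) :=
  {t | |t 0| ≤ H ∧ |t 1| ≤ H ∧ |t 2| ≤ H ∧ |t 3| ≤ (H : ℤ) ^ 2 ∧ Prim t}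

/-- `X_t` has an integral point `(x, y, u, 1)` with `|x|, |y|, |u| ≤ B` -/
def HasSmallPoint (B : ℝ) (t : Fin 4 → ℤ) : Prop :=
  ∃ x y u : ℤ, IsPoint t x y u 1 ∧ |(x : ℝ)| ≤ B ∧ |(y : ℝ)| ≤ B ∧ |(u : ℝ)| ≤ B

/-- `X_t` has an integral point `(x, y, u, v)` with all coordinates at most `B` in absolute value, that
is, a rational point of height at most `B` -/
def HasPointBelow (B : ℝ) (t : Fin 4 → ℤ) : Prop :=
  ∃ x y u v : ℤ, IsPoint t x y u v ∧ |(x : ℝ)| ≤ B ∧ |(y : ℝ)| ≤ B ∧ |(u : ℝ)| ≤ B ∧ |(v : ℝ)| ≤ B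

/-- **The Brauer-Manin obstruction for the cubic surfaces `u v T = N(x, y, u + v)`.**
(0) If `X_t` has a rational point, it has an adelic point orthogonal to `(K / ℚ, u / v)`.
(1) If the coefficients of `T` are coprime and `t` is not in one of 16 classes modulo 7 (`Exc`), `X_t`
has points over `ℝ` and all `ℚ_p`.
(2) For these `t`, `X_t` has an adelic point orthogonal to `(K / ℚ, u / v)` if and only if `t` is not in
one of 24 classes modulo 7 (`Obs`).
For every `ε > 0` there is `Λ` such that for every `η > 0` there is `H₀` such that for all `H ≥ H₀`,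
of the `t ∈ Forms H`,
(3) all but a proportion `ε` are smooth;
(4) the proportion of `Exc` differs from `1/150` by at most `ε`, and the proportion of the `t` outside
`Exc` for which there is no such adelic point differs from `1/100` by at most `ε`;
(5) of the `t ∈ Forms H` outside `Exc` with `X_t` smooth for which there is such an adelic point, all
but a proportion `ε` have an integral point `(x, y, u, 1)` with `|x|, |y|, |u| ≤ Λ H`;
(6) all but a proportion `ε` have no integral point with all coordinates at most `H ^ (1 - η)`. -/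
theorem result :
    (∀ t : Fin 4 → ℤ, HasPoint ℚ t → Orthogonal t) ∧
    (∀ t : Fin 4 → ℤ, Prim t → ¬ Exc t → EverywhereLocallySoluble t) ∧
    (∀ t : Fin 4 → ℤ, Prim t → ¬ Exc t → (Orthogonal t ↔ ¬ Obs t)) ∧
    ∀ ε : ℝ, 0 < ε → ∃ Λ : ℝ, 0 < Λ ∧ ∀ η : ℝ, 0 < η → ∃ H₀ : ℕ, ∀ H : ℕ, H₀ ≤ H →
      (1 - ε) * ((Forms H).ncard : ℝ) ≤ (({t ∈ Forms H | IsSmooth t}.ncard : ℕ) : ℝ) ∧
      |(({t ∈ Forms H | Exc t}.ncard : ℕ) : ℝ) - 1 / 150 * ((Forms H).ncard : ℝ)| ≤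
        ε * ((Forms H).ncard : ℝ) ∧
      |(({t ∈ Forms H | ¬ Exc t ∧ ¬ Orthogonal t}.ncard : ℕ) : ℝ) -
        1 / 100 * ((Forms H).ncard : ℝ)| ≤ ε * ((Forms H).ncard : ℝ) ∧
      (1 - ε) * (({t ∈ Forms H | IsSmooth t ∧ ¬ Exc t ∧ Orthogonal t}.ncard : ℕ) : ℝ) ≤
        (({t ∈ Forms H | IsSmooth t ∧ ¬ Exc t ∧ Orthogonal t ∧
          HasSmallPoint (Λ * H) t}.ncard : ℕ) : ℝ) ∧
      (({t ∈ Forms H | HasPointBelow ((H : ℝ) ^ (1 - η)) t}.ncard : ℕ) : ℝ) ≤
        ε * ((Forms H).ncard : ℝ) := by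
  have hort : ∀ t : Fin 4 → ℤ, Prim t → ¬ Exc t → (Orthogonal t ↔ ¬ Obs t) := fun t hP hE =>
    BMN.orth_iff (t := t) hP hE
  refine ⟨fun t h => BMN.orth_of_rat (t := t) h, fun t hP hE => BMN.ell_of (t := t) hP hE,
    hort, fun ε hε => ?_⟩
  obtain ⟨Λ, hΛ, H1, h1⟩ :=
    BMN.final_counts (fun t => Orthogonal t) (fun t ht hE => hort t ht.2.2.2.2 hE) ε hε
  obtain ⟨c, C, hc, -, H2, h2⟩ := BMN.forms_card
  refine ⟨Λ, hΛ, fun η hη => ?_⟩
  obtain ⟨H3, h3⟩ := BMN.low_count η (ε * c) hη (mul_pos hε hc)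
  refine ⟨max H1 (max H2 H3), fun H hH => ?_⟩
  obtain ⟨k1, k2, k3, k4⟩ := h1 H (le_trans (le_max_left _ _) hH)
  refine ⟨k1, k2, k3, k4, ?_⟩
  have k5 := (h2 H (le_trans (le_trans (le_max_left _ _) (le_max_right _ _)) hH)).1
  refine (h3 H (le_trans (le_trans (le_max_right _ _) (le_max_right _ _)) hH)).trans ?_
  rw [mul_assoc]
  exact mul_le_mul_of_nonneg_left k5 hε.le

end Pool.Agent.Results.MP_03ef3d_ag.SwinnertonDyerCubics
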